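import Pool.Agent.MVO.StmtsG

set_option autoImplicit false

/-! Squad MVO (MP_23468a_al), row CHB: chains between balanced words can be made balanced. -/

namespace Pool.Agent.MVO.H44

open Pool.Agent.Helper14_MV Pool.Agent.Helper2_MV Pool.Agent.MVO

/-- a step which keeps the numbers of the letters of `S`; all letters are in `F` -/
def StS (ρ σ : FIC) (F S : Finset ℕ) (u v : List ℕ) : Prop :=
  (∀ c, c ∉ F → c ∉ u ∧ c ∉ v) ∧ (∀ c ∈ S, u.count c = v.count c) ∧ (RR ρ u v ∨ RR σ u v)

/-- the letter `c` is deleted and written `d` times at the end -/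
def star (c d : ℕ) (w : List ℕ) : List ℕ := w.filter (fun e => e ≠ c) ++ List.replicate d c

theorem StS.symm {ρ σ : FIC} {F S : Finset ℕ} {u v : List ℕ} (h : StS ρ σ F S u v) :
    StS ρ σ F S v u :=
  ⟨fun c hc => ⟨(h.1 c hc).2, (h.1 c hc).1⟩, fun c hc => (h.2.1 c hc).symm,
    h.2.2.elim (fun h => Or.inl h.symm) (fun h => Or.inr h.symm)⟩

theorem rtg_symm {ρ σ : FIC} {F S : Finset ℕ} {u v : List ℕ}
    (h : Relation.ReflTransGen (StS ρ σ F S) u v) : Relation.ReflTransGen (StS ρ σ F S) v u := by
  induction h with
  | refl => exact Relation.ReflTransGen.refl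
  | tail _ h2 ih => exact Relation.ReflTransGen.head h2.symm ih

theorem count_star_self (c d : ℕ) (w : List ℕ) : (star c d w).count c = d := by
  unfold star
  rw [List.count_append, List.count_replicate_self]
  have h0 : (w.filter (fun e => decide (e ≠ c))).count c = 0 := by
    rw [List.count_eq_zero]
    intro h
    rw [List.mem_filter] at h
    simp at h
  rw [h0, Nat.zero_add]

theorem count_star_ne {c e : ℕ} (d : ℕ) (w : List ℕ) (h : e ≠ c) :
    (star c d w).count e = w.count e := by
  unfold star
  rw [List.count_append, List.count_filter (by simpa using h)]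
  have h0 : (List.replicate d c).count e = 0 := by
    rw [List.count_eq_zero]
    intro h1
    exact h (List.eq_of_mem_replicate h1)
  rw [h0, Nat.add_zero]

theorem mem_star {c d e : ℕ} {w : List ℕ} (h : e ∈ star c d w) : e ∈ w ∨ e = c := by
  unfold star at h
  rcases List.mem_append.1 h with h | h
  · exact Or.inl (List.mem_filter.1 h).1
  · exact Or.inr (List.eq_of_mem_replicate h)

/-- (1) -/
theorem step_star {ρ σ : FIC} {F S : Finset ℕ} {c : ℕ} (hc : c ∈ F) (d : ℕ) {w w' : List ℕ}
    (h : StS ρ σ F S w w') : StS ρ σ F (insert c S) (star c d w) (star c d w') := by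
  refine ⟨?_, ?_, ?_⟩
  · intro e he
    obtain ⟨h1, h2⟩ := h.1 e he
    refine ⟨fun h3 => ?_, fun h3 => ?_⟩
    · rcases mem_star h3 with h4 | h4
      · exact h1 h4
      · exact he (h4 ▸ hc)
    · rcases mem_star h3 with h4 | h4
      · exact h2 h4
      · exact he (h4 ▸ hc)
  · intro e he
    by_cases hec : e = c
    · rw [hec, count_star_self, count_star_self]
    · rw [count_star_ne d w hec, count_star_ne d w' hec]
      rcases Finset.mem_insert.1 he with h1 | h1
      · exact absurd h1 hec
      · exact h.2.1 e h1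
  · rcases h.2.2 with h1 | h1
    · exact Or.inl ((h1.filter _).append (RR.refl _))
    · exact Or.inr ((h1.filter _).append (RR.refl _))

theorem chain_star {ρ σ : FIC} {F S : Finset ℕ} {c : ℕ} (hc : c ∈ F) (d : ℕ) {w w' : List ℕ}
    (h : Relation.ReflTransGen (StS ρ σ F S) w w') :
    Relation.ReflTransGen (StS ρ σ F (insert c S)) (star c d w) (star c d w') := by
  induction h with
  | refl => exact Relation.ReflTransGen.refl
  | tail _ h2 ih => exact ih.tail (step_star hc d h2)

theorem count_chain {ρ σ : FIC} {F S : Finset ℕ} {c : ℕ} (hc : c ∈ S) {w w' : List ℕ}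
    (h : Relation.ReflTransGen (StS ρ σ F S) w w') : w.count c = w'.count c := by
  induction h with
  | refl => rfl
  | tail _ h2 ih => exact ih.trans (h2.2.1 c hc)

/-- (2) -/
theorem alt {β ρ σ : FIC} (hW : WU β) (hρ : β ≤ ρ) (hσ : β ≤ σ) {F S : Finset ℕ} {c : ℕ}
    (hc : c ∈ F) {u w : List ℕ} (h : Relation.ReflTransGen (StS ρ σ F S) u w) :
    Relation.ReflTransGen (StS ρ σ F (insert c S)) u w ∨
      Relation.ReflTransGen (StS ρ σ F (insert c S)) u (star c (u.count c) u) := by
  induction h with
  | refl => exact Or.inl Relation.ReflTransGen.refl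
  | @tail w w' h1 h2 ih =>
    rcases ih with ih | ih
    · by_cases hcc : w.count c = w'.count c
      · left
        refine ih.tail ⟨h2.1, ?_, h2.2.2⟩
        intro e he
        rcases Finset.mem_insert.1 he with h3 | h3
        · rw [h3]
          exact hcc
        · exact h2.2.1 e h3
      · right
        have hd : w.count c = u.count c := (count_chain (Finset.mem_insert_self c S) ih).symm
        have hst : StS ρ σ F (insert c S) w (star c (u.count c) w) := by
          refine ⟨?_, ?_, ?_⟩
          · intro e he
            have h3 := (h2.1 e he).1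
            refine ⟨h3, fun h4 => ?_⟩
            rcases mem_star h4 with h5 | h5
            · exact h3 h5
            · exact he (h5 ▸ hc)
          · intro e _
            by_cases hec : e = c
            · rw [hec, count_star_self, hd]
            · rw [count_star_ne _ w hec]
          · rw [← hd]
            rcases h2.2.2 with h3 | h3
            · exact Or.inl (hW ρ hρ w w' c h3 hcc)
            · exact Or.inr (hW σ hσ w w' c h3 hcc)
        exact (ih.tail hst).trans (rtg_symm (chain_star hc (u.count c) h1))
    · exact Or.inr ih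

theorem add_letter {β ρ σ : FIC} (hW : WU β) (hρ : β ≤ ρ) (hσ : β ≤ σ) {F S : Finset ℕ} {c : ℕ}
    (hc : c ∈ F) {u v : List ℕ} (h : Relation.ReflTransGen (StS ρ σ F S) u v)
    (huv : u.count c = v.count c) :
    Relation.ReflTransGen (StS ρ σ F (insert c S)) u v := by
  rcases alt hW hρ hσ hc h with h1 | h1
  · exact h1
  · rcases alt hW hρ hσ hc (rtg_symm h) with h2 | h2
    · exact rtg_symm h2
    · rw [← huv] at h2
      exact (h1.trans (chain_star hc _ h)).trans (rtg_symm h2)

theorem StS.mono {ρ σ : FIC} {F F' S : Finset ℕ} (hF : F ⊆ F') {u v : List ℕ}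
    (h : StS ρ σ F S u v) : StS ρ σ F' S u v :=
  ⟨fun c hc => h.1 c (fun h1 => hc (hF h1)), h.2⟩

theorem start {ρ σ : FIC} {u v : Word} (h : (FIC.sup ρ σ).r u v) :
    ∃ F : Finset ℕ, (∀ c, c ∉ F → c ∉ FreeMonoid.toList v) ∧
      Relation.ReflTransGen (StS ρ σ F ∅) (FreeMonoid.toList u) (FreeMonoid.toList v) := by
  classical
  induction h with
  | refl =>
    exact ⟨(FreeMonoid.toList u).toFinset, fun c hc h => hc (List.mem_toFinset.2 h),
      Relation.ReflTransGen.refl⟩
  | @tail w w' _ h2 ih =>
    obtain ⟨F, hF, hch⟩ := ih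
    refine ⟨F ∪ (FreeMonoid.toList w').toFinset, ?_, ?_⟩
    · intro c hc h3
      exact hc (Finset.mem_union_right _ (List.mem_toFinset.2 h3))
    · have hch2 : Relation.ReflTransGen (StS ρ σ (F ∪ (FreeMonoid.toList w').toFinset) ∅)
          (FreeMonoid.toList u) (FreeMonoid.toList w) :=
        Relation.ReflTransGen.mono (fun _ _ h => StS.mono Finset.subset_union_left h) _ _ hch
      refine Relation.ReflTransGen.tail hch2 ⟨?_, ?_, ?_⟩
      · intro c hc
        exact ⟨hF c (fun h3 => hc (Finset.mem_union_left _ h3)),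
          fun h3 => hc (Finset.mem_union_right _ (List.mem_toFinset.2 h3))⟩
      · intro c hc
        exact absurd hc (Finset.notMem_empty c)
      · unfold RR
        rw [FreeMonoid.ofList_toList, FreeMonoid.ofList_toList]
        exact h2

theorem chb : ChbStmt := by
  intro β ρ σ hW hρ hσ u v huv hr
  classical
  obtain ⟨F, hF, hch⟩ := start hr
  rw [FreeMonoid.toList_ofList] at hF
  rw [FreeMonoid.toList_ofList, FreeMonoid.toList_ofList] at hch
  have key : ∀ S : Finset ℕ, S ⊆ F → Relation.ReflTransGen (StS ρ σ F S) u v := by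
    intro S
    induction S using Finset.induction_on with
    | empty => intro _; exact hch
    | insert c S _ ih =>
      intro hS
      exact add_letter hW hρ hσ (hS (Finset.mem_insert_self c S))
        (ih (fun e he => hS (Finset.mem_insert_of_mem he))) (huv c)
  refine Relation.ReflTransGen.mono ?_ _ _ (key F (Finset.Subset.refl F))
  intro w w' h
  refine ⟨fun c => ?_, h.2.2⟩
  by_cases hc : c ∈ F
  · exact h.2.1 c hc
  · rw [List.count_eq_zero.2 (h.1 c hc).1, List.count_eq_zero.2 (h.1 c hc).2]

end Pool.Agent.MVO.H44
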