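import Pool.Agent.MVO.StmtsN

set_option autoImplicit false

/-! Squad MVO (MP_23468a_al), row ECB. -/

namespace Pool.Agent.MVO.H44

open Pool.Agent.Helper14_MV Pool.Agent.Helper2_MV Pool.Agent.MVO

theorem ecb_step (hWBL : WblStmt) {β : FIC} (hC : β ≤ thC3) (hN : NC2 β) {k : ℕ}
    {cls : (ℕ → ℕ) → ℕ} {h0 : ℕ}
    (h1 : ∀ a a', deg k a = 3 → deg k a' = 3 → L1 β k a a' → cls a = cls a')
    (h2 : ∀ a a', deg k a = 3 → 4 ≤ deg k a' → L1 β k a a' → cls a = h0) (c : ℕ) {W W' : Word}
    (hW : β.r W W') (hP : PC k (fun a => cls a = c) (c = h0) W) :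
    PC k (fun a => cls a = c) (c = h0) W' := by
  obtain ⟨a, ha, hd⟩ := hP
  have hr : RR β (asm k (fun j => List.replicate (a j) 0)) W'.toList := by
    have h3 : RR β W.toList W'.toList := by
      unfold RR
      rw [FreeMonoid.ofList_toList, FreeMonoid.ofList_toList]
      exact hW
    rw [ha] at h3
    exact h3
  obtain ⟨B', hB', hl, hc⟩ := hWBL β hC hN k (fun j => List.replicate (a j) 0) W'.toList
    (fun j _ d hd => Or.inl (List.eq_of_mem_replicate hd)) hr
  have h1' : deg k (fun j => (B' j).count 1) = 0 := by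
    have h3 : deg k (fun j => (List.replicate (a j) 0).count 1) = 0 := by
      unfold deg
      apply Finset.sum_eq_zero
      intro j _
      rw [List.count_eq_zero]
      intro h4
      exact one_ne_zero (List.eq_of_mem_replicate h4)
    rw [hc 1 (by rw [h3]; omega), h3]
  have hrep : ∀ j ≤ k, B' j = List.replicate ((B' j).count 0) 0 := by
    intro j hj
    have h3 : (B' j).count 1 = 0 := by
      unfold deg at h1'
      exact Finset.sum_eq_zero_iff.1 h1' j (Finset.mem_range.2 (by omega))
    rw [List.count_eq_zero] at h3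
    symm
    rw [← List.filter_beq, List.filter_eq_self]
    intro d hd
    rcases hl j d hd with h4 | h4
    · rw [h4]
      rfl
    · exact absurd (h4 ▸ hd) h3
  set a' : ℕ → ℕ := fun j => (B' j).count 0 with ha'
  have hW' : W'.toList = mw k a' := by
    rw [hB']
    unfold mw
    exact asm_congr hrep
  have hL : L1 β k a a' := by
    unfold L1
    rw [← hW']
    exact hr
  have hcount : ∀ b : ℕ → ℕ, (mw k b).count 0 = deg k b := by
    intro b
    unfold mw
    rw [count_asm (fun h => by omega)]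
    simp only [List.count_replicate_self]
  have hdeg : 3 ≤ deg k a' := by
    by_contra hlt
    have h3 : cnt 0 W' ≤ 2 := by
      unfold cnt
      rw [hW', hcount]
      omega
    have h4 := cnt_thC3 (hC _ _ (β.symm hW)) h3
    unfold cnt at h4
    rw [hW', ha, hcount, hcount] at h4
    rcases hd with ⟨h5, _⟩ | ⟨h5, _⟩ <;> omega
  refine ⟨a', hW', ?_⟩
  rcases Nat.lt_or_ge 3 (deg k a') with h3 | h3
  · -- degree at least 4
    right
    refine ⟨h3, ?_⟩
    rcases hd with ⟨h4, h5⟩ | ⟨_, h5⟩
    · have h5 : cls a = c := h5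
      rw [← h5]
      exact h2 a a' h4 h3 hL
    · exact h5
  · left
    have h3' : deg k a' = 3 := le_antisymm h3 hdeg
    refine ⟨h3', ?_⟩
    rcases hd with ⟨h4, h5⟩ | ⟨h4, h5⟩
    · have h5 : cls a = c := h5
      show cls a' = c
      rw [← h5]
      exact (h1 a a' h4 h3' hL).symm
    · show cls a' = c
      rw [h5]
      exact h2 a' a h3' h4 (RR.symm hL)

theorem ecb (hWBL : WblStmt) : EcbStmt := by
  intro β hC hN k cls h0 _ h1 h2 u v huv c φ m q
  have hW : β.r (m * φ u * q) (m * φ v * q) := β.mul (β.mul (β.refl m) (β.sub φ huv)) (β.refl q)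
  exact ⟨ecb_step hWBL hC hN h1 h2 c hW, ecb_step hWBL hC hN h1 h2 c (β.symm hW)⟩

end Pool.Agent.MVO.H44
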