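import Pool.Agent.MVO.StmtsE

set_option autoImplicit false

/-! Squad MVO (MP_23468a_al), row SMD: letters with two occurrences keep their types. -/

namespace Pool.Agent.MVO.H44

open Pool.Agent.Helper14_MV Pool.Agent.Helper2_MV Pool.Agent.MVO

/-- the map of the blocks `0, …, l` to `0` and of the others to `1` -/
def cutf (l : ℕ) (i : ℕ) : ℕ := if i ≤ l then 0 else 1

theorem cutf_bmap (k l : ℕ) : BMap k 1 (cutf l) := by
  constructor
  · intro i j hij _
    unfold cutf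
    split_ifs <;> omega
  · intro i _
    unfold cutf
    split_ifs <;> omega

theorem psh_cut0 {k l : ℕ} (hl : l < k) (a : ℕ → ℕ) :
    psh k (cutf l) a 0 = ∑ i ∈ Finset.range (l + 1), a i := by
  unfold psh
  rw [← Finset.sum_filter]
  apply Finset.sum_congr
  · ext i
    rw [Finset.mem_filter, Finset.mem_range, Finset.mem_range]
    unfold cutf
    constructor
    · rintro ⟨_, h2⟩
      by_contra h3
      rw [if_neg (by omega)] at h2
      omega
    · intro h
      exact ⟨by omega, if_pos (by omega)⟩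
  · intro i _
    rfl

theorem psh_cut_add (k l : ℕ) (a : ℕ → ℕ) :
    psh k (cutf l) a 0 + psh k (cutf l) a 1 = deg k a := by
  unfold psh deg
  rw [← Finset.sum_add_distrib]
  apply Finset.sum_congr rfl
  intro i _
  unfold cutf
  by_cases h : i ≤ l
  · simp [h]
  · simp [h]

theorem sym3 {ω : FIC} (hIA : ¬ MVD.IA ω) (hIAd : ¬ MVD.IAd ω) :
    ¬ RR ω [0, 0, 2] [0, 2, 0] ∧ ¬ RR ω [0, 2, 0] [2, 0, 0] ∧ ¬ RR ω [0, 0, 2] [2, 0, 0] := by
  refine ⟨fun h => ?_, fun h => ?_, fun h => ?_⟩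
  · have h1 : RR ω [0, 0, 2, 3, 3] [0, 2, 0, 3, 3] := h.append (RR.refl (β := ω) [3, 3])
    have h2 : RR ω [0, 0, 2, 3, 3] [0, 2, 3, 3, 0] :=
      h.sub (fun c => if c = 2 then [2, 3, 3] else [c])
    exact hIA (ω.trans (RR.symm h1) h2)
  · have h1 : RR ω [3, 3, 0, 2, 0] [3, 3, 2, 0, 0] := (RR.refl (β := ω) [3, 3]).append h
    have h2 : RR ω [0, 3, 3, 2, 0] [3, 3, 2, 0, 0] :=
      h.sub (fun c => if c = 2 then [3, 3, 2] else [c])
    exact hIAd (ω.trans h1 (RR.symm h2))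
  · have h1 : RR ω [3, 3, 0] [0, 3, 3] :=
      h.sub (fun c => if c = 2 then [0] else [3])
    have h2 : RR ω [0, 2, 3, 3, 0] [0, 2, 0, 3, 3] := (RR.refl (β := ω) [0, 2]).append h1
    exact hIA (RR.symm h2)

theorem smd : SmdStmt := by
  intro ω hIA hIAd k a a' ha ha' h
  by_contra hcon
  have hl : ∃ l < k, ∑ i ∈ Finset.range (l + 1), a i ≠ ∑ i ∈ Finset.range (l + 1), a' i := by
    by_contra hne
    apply hcon
    have hall : ∀ l ≤ k, ∑ i ∈ Finset.range (l + 1), a i =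
        ∑ i ∈ Finset.range (l + 1), a' i := by
      intro l hl
      rcases Nat.lt_or_eq_of_le hl with h1 | rfl
      · by_contra h2
        exact hne ⟨l, h1, h2⟩
      · exact ha.trans ha'.symm
    intro j hj
    cases j with
    | zero =>
      have h1 := hall 0 hj
      simpa using h1
    | succ j =>
      have h1 := hall j (by omega)
      have h2 := hall (j + 1) hj
      rw [Finset.sum_range_succ _ (j + 1), Finset.sum_range_succ _ (j + 1)] at h2
      omega
  obtain ⟨l, hlk, hne⟩ := hl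
  have hp : L1 ω 1 (psh k (cutf l) a) (psh k (cutf l) a') :=
    (FC.ofFIC ω).push 1 (cutf l) (cutf_bmap k l) h
  rw [← psh_cut0 hlk, ← psh_cut0 hlk] at hne
  have h1 := psh_cut_add k l a
  have h2 := psh_cut_add k l a'
  rw [ha] at h1
  rw [ha'] at h2
  unfold L1 mw at hp
  simp only [asm] at hp
  generalize psh k (cutf l) a 0 = s at *
  generalize psh k (cutf l) a 1 = t at *
  generalize psh k (cutf l) a' 0 = s' at *
  generalize psh k (cutf l) a' 1 = t' at *
  obtain ⟨k1, k2, k3⟩ := sym3 hIA hIAd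
  have hs : (s = 0 ∧ t = 2) ∨ (s = 1 ∧ t = 1) ∨ (s = 2 ∧ t = 0) := by omega
  have hs' : (s' = 0 ∧ t' = 2) ∨ (s' = 1 ∧ t' = 1) ∨ (s' = 2 ∧ t' = 0) := by omega
  rcases hs with ⟨rfl, rfl⟩ | ⟨rfl, rfl⟩ | ⟨rfl, rfl⟩ <;>
    rcases hs' with ⟨rfl, rfl⟩ | ⟨rfl, rfl⟩ | ⟨rfl, rfl⟩
  · exact hne rfl
  · exact k2 (RR.symm hp)
  · exact k3 (RR.symm hp)
  · exact k2 hp
  · exact hne rfl
  · exact k1 (RR.symm hp)
  · exact k3 hp
  · exact k1 hp
  · exact hne rfl

end Pool.Agent.MVO.H44
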