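import Pool.Agent.MVO.StmtsF

set_option autoImplicit false

/-! Squad MVO (MP_23468a_al), row TI3: tightness of class c3. -/

namespace Pool.Agent.MVO.H44

open Pool.Agent.Helper14_MV Pool.Agent.Helper2_MV Pool.Agent.MVO

theorem cc_mono {β ρ : FIC} (h : β ≤ ρ) (hc : MVD.Cc β) : MVD.Cc ρ :=
  ⟨h _ _ hc.1, fun p q c r x y hm => h _ _ (hc.2.1 p q c r x y hm),
    fun p q c r x y hm => h _ _ (hc.2.2 p q c r x y hm)⟩

theorem clC3_mono {β ρ : FIC} (h : β ≤ ρ) (hc : ClC3 β) : ClC3 ρ :=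
  ⟨cc_mono h hc.cc,
    fun p c q x y h1 h2 h3 h4 h5 h6 => h _ _ (hc.l3.1 p c q x y h1 h2 h3 h4 h5 h6),
    fun p c q x y h1 h2 h3 h4 h5 h6 => h _ _ (hc.l3.2.1 p c q x y h1 h2 h3 h4 h5 h6),
    fun p c q x y h1 h2 h3 h4 h5 h6 h7 => h _ _ (hc.l3.2.2 p c q x y h1 h2 h3 h4 h5 h6 h7)⟩

/-- trivial exchanges -/
theorem bt_zero (ρ : FIC) (k : ℕ) (a b : ℕ → ℕ) (i : ℕ) (h : a i = 0 ∨ b i = 0) :
    Bt ρ k a b i := by
  intro e
  unfold Ex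
  have e1 : w2 k a b e = w2 k a b (flp e i) := by
    unfold w2
    apply asm_congr
    intro j _
    unfold flp
    by_cases hj : j = i
    · subst hj
      rw [if_pos rfl]
      unfold bl
      rcases h with h | h
      · rw [h]
        cases e j <;> simp
      · rw [h]
        cases e j <;> simp
    · rw [if_neg hj]
  rw [← e1]
  exact RR.refl _

theorem other_entry {k i : ℕ} {a : ℕ → ℕ} (hi : i ≤ k) (hne : a i ≠ deg k a) :
    (∃ j < i, 1 ≤ a j) ∨ (∃ j ≤ k, i < j ∧ 1 ≤ a j) := by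
  by_contra hcon
  rw [not_or] at hcon
  obtain ⟨h1, h2⟩ := hcon
  apply hne
  unfold deg
  symm
  apply Finset.sum_eq_single_of_mem i (Finset.mem_range.2 (by omega))
  intro j hj hji
  rw [Finset.mem_range] at hj
  by_contra h0
  rcases lt_or_gt_of_ne hji with h3 | h3
  · exact h1 ⟨j, h3, by omega⟩
  · exact h2 ⟨j, by omega, h3, by omega⟩

theorem ti3 (hMRT : MrtStmt) (hMRC : MrcStmt) (hMRD : MrdStmt) (hTCA : TcaStmt)
    (hTCB : TcbStmt) (hTCC : TccStmt) (hTCD : TcdStmt) (hSMD : SmdStmt) (hFCN : FcnStmt)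
    (hTFA : TfaStmt) (hTFB : TfbStmt) (hTFC : TfcStmt) (hTFD : TfdStmt) (hMRF : MrfStmt)
    (hTLO : TloStmt) : Ti3Stmt := by
  intro β hβ hG ρ hβρ hNC
  have hρ : ClC3 ρ := clC3_mono hβρ hβ
  show TightAt β ρ
  have hmir : MVD.mir β ≤ MVD.mir ρ := (hMRT β).2.2.2.2 ρ hβρ
  obtain ⟨_, _, _, _, _, _, _, mO1, mO2, mO3, mO4, mc1', _, mc2, mc3, _⟩ := hMRC β
  have hccm : MVD.Cc (MVD.mir ρ) := (hMRC ρ).1.2 hρ.cc
  by_cases hA : MVD.IA ρ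
  · -- the case `IA`
    have hC1 : ClC1 ρ := ⟨hρ.cc, hA⟩
    rcases hG.2 with ⟨h1, h2, _⟩ | ⟨h1, h2⟩ | ⟨h1, h2⟩ | h1
    · exact hTCA β ρ hβρ hC1 h1 h2
    · exact hTCB β ρ hβρ hC1 h1 h2
    · exact hTCC β ρ hβρ hC1 h1 h2
    · exact hTCD β ρ hβρ hC1 h1
  by_cases hAd : MVD.IAd ρ
  · have hC1 : ClC1 (MVD.mir ρ) := ⟨hccm, (hMRC ρ).2.1.2 hAd⟩
    apply hMRD.1
    rcases hG.2 with ⟨h1, _, h2⟩ | ⟨h1, h2⟩ | ⟨h1, h2⟩ | h1
    · exact hTCA _ _ hmir hC1 (mO1.2 h1) (mc1' h1 h2)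
    · exact hTCC _ _ hmir hC1 (mO3.2 h1) (mc2 h2)
    · exact hTCB _ _ hmir hC1 (mO2.2 h1) (mc3 h2)
    · exact hTCD _ _ hmir hC1 (mO4.2 h1)
  have hF : TightF β ρ := by
    rcases hG.2 with ⟨h1, h2, _⟩ | ⟨h1, h2⟩ | ⟨h1, h2⟩ | h1
    · exact hTFA β ρ hβρ hρ.cc h1 h2
    · exact hTFB β ρ hβρ hρ.cc h1
    · exact hTFC β ρ hβρ hρ.cc h1 h2
    · exact hTFD β ρ hβρ hρ.cc h1
  have hZ : TightZ β ρ := by
    apply hMRF
    rcases hG.2 with ⟨h1, _, h2⟩ | ⟨h1, h2⟩ | ⟨h1, h2⟩ | h1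
    · exact hTFA _ _ hmir hccm (mO1.2 h1) (mc1' h1 h2)
    · exact hTFC _ _ hmir hccm (mO3.2 h1) (mc2 h2)
    · exact hTFB _ _ hmir hccm (mO2.2 h1)
    · exact hTFD _ _ hmir hccm (mO4.2 h1)
  intro k a a' hda hdd hL
  by_cases hLβ : L1 β k a a'
  · exact Or.inl hLβ
  right
  have hne : ∃ j ≤ k, a j ≠ a' j := by
    by_contra hcon
    apply hLβ
    apply (FC.ofFIC β).ext (fun j _ => rfl) (b := a) _ ((FC.ofFIC β).refl k a)
    intro j hj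
    by_contra h1
    exact hcon ⟨j, hj, h1⟩
  have h3 : 3 ≤ deg k a := by
    by_contra hlt
    obtain ⟨j, hj, h1⟩ := hne
    exact h1 (hSMD ρ hA hAd k a a' (by omega) (by omega) hL j hj)
  intro b e hb i hi
  have key : Bt ρ k a b i := by
    by_cases ha0 : a i = 0
    · exact bt_zero ρ k a b i (Or.inl ha0)
    by_cases hb0 : b i = 0
    · exact bt_zero ρ k a b i (Or.inr hb0)
    by_cases had : a i = deg k a
    · exact hTLO ρ hρ k a a' b i h3 hdd hL hne hb hi (Or.inl had)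
    by_cases hbd : b i = deg k b
    · exact hTLO ρ hρ k a a' b i h3 hdd hL hne hb hi (Or.inr hbd)
    obtain ⟨hN0, _, _, _, hN5⟩ := hFCN ρ hρ.cc
    have ea := other_entry hi had
    have eb := other_entry hi hbd
    by_cases c1 : (∃ j < i, 1 ≤ a j) ∧ (∃ j ≤ k, i < j ∧ 1 ≤ b j)
    · exact hN0 k a b i hda hb hi c1.2 (Or.inr (Or.inl c1.1))
    by_cases c2 : (∃ j < i, 1 ≤ b j) ∧ (∃ j ≤ k, i < j ∧ 1 ≤ a j)
    · exact hN5 k b a i (hN0 k b a i hb hda hi c2.2 (Or.inr (Or.inl c2.1)))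
    by_cases c3 : ∃ j < i, 1 ≤ a j
    · have nb : ¬ ∃ j ≤ k, i < j ∧ 1 ≤ b j := fun h => c1 ⟨c3, h⟩
      have pb : ∃ j < i, 1 ≤ b j := eb.resolve_right nb
      have na : ¬ ∃ j ≤ k, i < j ∧ 1 ≤ a j := fun h => c2 ⟨pb, h⟩
      apply hZ k a a' b i h3 hdd hL hLβ hi c3 pb _ (Nat.one_le_iff_ne_zero.2 ha0)
        (Nat.one_le_iff_ne_zero.2 hb0)
      intro j hj hij
      constructor
      · by_contra h0
        exact na ⟨j, hj, hij, Nat.one_le_iff_ne_zero.2 h0⟩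
      · by_contra h0
        exact nb ⟨j, hj, hij, Nat.one_le_iff_ne_zero.2 h0⟩
    · have pa : ∃ j ≤ k, i < j ∧ 1 ≤ a j := ea.resolve_left c3
      have nb : ¬ ∃ j < i, 1 ≤ b j := fun h => c2 ⟨h, pa⟩
      have pb : ∃ j ≤ k, i < j ∧ 1 ≤ b j := eb.resolve_left nb
      apply hF k a a' b i h3 hdd hL hLβ hi pa pb _ (Nat.one_le_iff_ne_zero.2 ha0)
        (Nat.one_le_iff_ne_zero.2 hb0)
      intro j hj
      constructor
      · by_contra h0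
        exact c3 ⟨j, hj, Nat.one_le_iff_ne_zero.2 h0⟩
      · by_contra h0
        exact nb ⟨j, hj, Nat.one_le_iff_ne_zero.2 h0⟩
  exact key e

end Pool.Agent.MVO.H44
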